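import Pool.Agent.MP_e5a18e_gt.H56.Sets

/-!
The combinatorial core: every point is covered by a basic set whose parameters are generated by
finitely many of its antipodal coordinates.
-/

set_option autoImplicit false

open Set Filter

namespace Pool.Agent.MP_e5a18e_gt.H56

/-- Finite conditions: decided bits and fixed coordinates. -/
abbrev Bas (Z : Type) : Type := Finset (ℕ × ℕ × Bool) × Finset (ℕ × Z)

variable {Z : Type}

/-- The basic set of a condition. -/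
def nb (π : Z → Ca) (p : Bas Z) : Set (ℕ → Z) :=
  {z | (∀ q ∈ p.1, π (z q.1) q.2.1 = q.2.2) ∧ ∀ q ∈ p.2, z q.1 = q.2}

/-- The antipodal coordinates below `m`. -/
def Jm (π : Z → Ca) (m : ℕ) (x : ℕ → Z) : Set Z :=
  {d | ∃ i < m, ∃ j < m, d = x i ∧ π (x i) = ng (π (x j))}

/-- `D` is closed under the rules in `H`. -/
def Clo (H : Set (Bas Z × ℕ × Z)) (D : Set Z) : Prop :=
  ∀ h ∈ H, (∀ q ∈ h.1.2, q.2 ∈ D) → h.2.2 ∈ D

/-- The closure of `e` under the rules in `H`. -/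
def cl (H : Set (Bas Z × ℕ × Z)) (e : Set Z) : Set Z := {d | ∀ D, Clo H D → e ⊆ D → d ∈ D}

/-- The points that are not yet covered. -/
def KK (π : Z → Ca) (Good : Bas Z → Prop) (H : Set (Bas Z × ℕ × Z)) : Set (ℕ → Z) :=
  {x | ¬ ∃ m p, Good p ∧ x ∈ nb π p ∧ ∀ q ∈ p.2, q.2 ∈ cl H (Jm π m x)}

/-- At most one rule for each condition and coordinate. -/
def Func (H : Set (Bas Z × ℕ × Z)) : Prop :=
  ∀ p i d d', (p, i, d) ∈ H → (p, i, d') ∈ H → d = d'

theorem nb_anti {π : Z → Ca} {p p' : Bas Z} (h : p ≤ p') : nb π p' ⊆ nb π p :=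
  fun _ hz => ⟨fun q hq => hz.1 q (h.1 hq), fun q hq => hz.2 q (h.2 hq)⟩

theorem Jm_mono (π : Z → Ca) {m m' : ℕ} (h : m ≤ m') (x : ℕ → Z) : Jm π m x ⊆ Jm π m' x := by
  rintro d ⟨i, hi, j, hj, h1⟩
  exact ⟨i, hi.trans_le h, j, hj.trans_le h, h1⟩

theorem Jm_finite (π : Z → Ca) (m : ℕ) (x : ℕ → Z) : (Jm π m x).Finite := by
  refine ((finite_lt_nat m).image x).subset ?_
  rintro d ⟨i, hi, j, -, h1, -⟩
  exact ⟨i, hi, h1.symm⟩

theorem cl_mono {H H' : Set (Bas Z × ℕ × Z)} {e e' : Set Z} (hH : H ⊆ H') (he : e ⊆ e') :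
    cl H e ⊆ cl H' e' :=
  fun _ hd D hD h => hd D (fun r hr => hD r (hH hr)) (he.trans h)

theorem subset_cl (H : Set (Bas Z × ℕ × Z)) (e : Set Z) : e ⊆ cl H e := fun _ hd _ _ h => h hd

theorem clo_cl (H : Set (Bas Z × ℕ × Z)) (e : Set Z) : Clo H (cl H e) :=
  fun r hr h D hD he => hD r hr fun q hq => h q hq D hD he

theorem KK_anti (π : Z → Ca) (Good : Bas Z → Prop) {H H' : Set (Bas Z × ℕ × Z)} (hH : H ⊆ H') :
    KK π Good H' ⊆ KK π Good H := by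
  rintro x hx ⟨m, p, h1, h2, h3⟩
  exact hx ⟨m, p, h1, h2, fun q hq => cl_mono hH Subset.rfl (h3 q hq)⟩

theorem bas_countable {D : Set Z} (hD : D.Countable) :
    {p : Bas Z | ∀ q ∈ p.2, q.2 ∈ D}.Countable := by
  have h1 : ((univ : Set ℕ) ×ˢ D).Countable := countable_univ.prod hD
  have h2 : {t : Finset (ℕ × Z) | ∀ q ∈ t, q.2 ∈ D}.Countable := by
    refine ((countable_ofPred_finite_subset h1).preimage_of_injOn
      (f := fun t : Finset (ℕ × Z) => (t : Set (ℕ × Z))) Finset.coe_injective.injOn).mono ?_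
    intro t ht
    exact ⟨t.finite_toSet, fun q hq => ⟨mem_univ _, ht q hq⟩⟩
  refine ((countable_univ (α := Finset (ℕ × ℕ × Bool))).prod h2).mono ?_
  intro p hp
  exact ⟨mem_univ _, hp⟩

theorem cl_countable {H : Set (Bas Z × ℕ × Z)} (hH : Func H) {e : Set Z} (he : e.Countable) :
    (cl H e).Countable := by
  let st : Set Z → Set Z := fun D => D ∪ {d | ∃ p i, (p, i, d) ∈ H ∧ ∀ q ∈ p.2, q.2 ∈ D}
  have h1 : ∀ D : Set Z, D.Countable → (st D).Countable := by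
    intro D hD
    refine hD.union (((bas_countable hD).biUnion fun p _ => countable_iUnion fun i : ℕ =>
      (show {d | (p, i, d) ∈ H}.Subsingleton from
        fun d hd d' hd' => hH p i d d' hd hd').countable).mono ?_)
    rintro d ⟨p, i, h2, h3⟩
    exact mem_iUnion₂.2 ⟨p, h3, mem_iUnion.2 ⟨i, h2⟩⟩
  let D : ℕ → Set Z := fun n => st^[n] e
  have h2 : ∀ n, D (n + 1) = st (D n) := fun n => Function.iterate_succ_apply' st n e
  have h3 : ∀ n, (D n).Countable := by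
    intro n
    induction n with
    | zero => exact he
    | succ n ih => rw [h2]; exact h1 _ ih
  have h4 : Monotone D := monotone_nat_of_le_succ fun n => by
    rw [h2]; exact subset_union_left
  refine (countable_iUnion h3).mono fun d hd => hd _ ?_ (subset_iUnion D 0)
  rintro ⟨p, i, d⟩ hr h
  have h5 : ∀ᶠ n in atTop, ∀ q ∈ p.2, q.2 ∈ D n := by
    rw [eventually_all_finset]
    intro q hq
    obtain ⟨n, hn⟩ := mem_iUnion.1 (h q hq)
    exact (eventually_ge_atTop n).mono fun m hm => h4 hm hn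
  obtain ⟨n, hn⟩ := h5.exists
  refine mem_iUnion.2 ⟨n + 1, ?_⟩
  rw [h2]
  exact .inr ⟨p, i, hr, hn⟩

theorem exists_rules (π : Z → Ca) (Good : Bas Z → Prop) :
    ∃ H : Set (Bas Z × ℕ × Z), Func H ∧ ∀ p i d, (nb π p ∩ KK π Good H).Nonempty →
      (∀ z ∈ nb π p ∩ KK π Good H, z i = d) → (p, i, d) ∈ H := by
  obtain ⟨H, hH⟩ := zorn_subset {H : Set (Bas Z × ℕ × Z) | Func H ∧
      ∀ r ∈ H, ∀ z ∈ nb π r.1 ∩ KK π Good H, z r.2.1 = r.2.2} (by
    intro c hc hch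
    refine ⟨⋃₀ c, ⟨?_, ?_⟩, fun s hs => subset_sUnion_of_mem hs⟩
    · rintro p i d d' ⟨s, hs, h1⟩ ⟨t, ht, h2⟩
      rcases hch.total hs ht with h | h
      · exact (hc ht).1 p i d d' (h h1) h2
      · exact (hc hs).1 p i d d' h1 (h h2)
    · rintro r ⟨s, hs, h1⟩ z hz
      exact (hc hs).2 r h1 z ⟨hz.1, KK_anti π Good (subset_sUnion_of_mem hs) hz.2⟩)
  refine ⟨H, hH.prop.1, fun p i d ⟨z, hz⟩ hd => ?_⟩
  have h1 : ∀ d', (p, i, d') ∈ H → d' = d := fun d' h =>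
    (hH.prop.2 _ h z hz).symm.trans (hd z hz)
  refine hH.le_of_ge (y := insert (p, i, d) H) ⟨?_, ?_⟩ (subset_insert _ _) (mem_insert _ _)
  · rintro p' i' e e' (h2 | h2) (h3 | h3)
    · rw [(Prod.mk.inj (Prod.mk.inj h2).2).2, (Prod.mk.inj (Prod.mk.inj h3).2).2]
    · obtain ⟨rfl, rfl, rfl⟩ := h2
      exact (h1 _ h3).symm
    · obtain ⟨rfl, rfl, rfl⟩ := h3
      exact h1 _ h2
    · exact hH.prop.1 _ _ _ _ h2 h3
  · rintro r (rfl | hr) w hw
    · exact hd w ⟨hw.1, KK_anti π Good (subset_insert _ _) hw.2⟩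
    · exact hH.prop.2 r hr w ⟨hw.1, KK_anti π Good (subset_insert _ _) hw.2⟩

theorem meet_all {P ι : Type} [Preorder P] (R : ι → P → Prop)
    (mono : ∀ r p q, p ≤ q → R r p → R r q) (dense : ∀ r p, ∃ q, p ≤ q ∧ R r q) (s : Finset ι)
    (p : P) : ∃ q, p ≤ q ∧ ∀ r ∈ s, R r q := by
  classical
  induction s using Finset.induction_on with
  | empty => exact ⟨p, le_rfl, by simp⟩
  | insert r s _ ih =>
    obtain ⟨q, h1, h2⟩ := ih
    obtain ⟨q', h3, h4⟩ := dense r q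
    refine ⟨q', h1.trans h3, fun r' hr' => ?_⟩
    rcases Finset.mem_insert.1 hr' with rfl | hr'
    · exact h4
    · exact mono _ _ _ h3 (h2 r' hr')

/-- Conditions that meet `K` and generate their own parameters. -/
def St (π : Z → Ca) (H : Set (Bas Z × ℕ × Z)) (K : Set (ℕ → Z)) : Type :=
  {p : Bas Z // (nb π p ∩ K).Nonempty ∧ ∃ m, ∀ z ∈ nb π p, ∀ q ∈ p.2, q.2 ∈ cl H (Jm π m z)}

section Split

variable {π : Z → Ca} {H : Set (Bas Z × ℕ × Z)} {K : Set (ℕ → Z)}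

instance : Preorder (St π H K) := inferInstanceAs (Preorder (Subtype _))

theorem add_bit (p : St π H K) {z : ℕ → Z} (hz : z ∈ nb π p.1 ∩ K) (s : Finset (ℕ × ℕ × Bool))
    (hs : ∀ q ∈ s, π (z q.1) q.2.1 = q.2.2) : ∃ p' : St π H K, p ≤ p' ∧ s ⊆ p'.1.1 := by
  have h1 : p.1 ≤ (p.1.1 ∪ s, p.1.2) := ⟨Finset.subset_union_left, le_rfl⟩
  obtain ⟨m, hm⟩ := p.2.2
  refine ⟨⟨(p.1.1 ∪ s, p.1.2), ⟨z, ⟨fun q hq => ?_, hz.1.2⟩, hz.2⟩, m,
    fun w hw => hm w (nb_anti h1 hw)⟩, h1, Finset.subset_union_right⟩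
  rcases Finset.mem_union.1 hq with h | h
  · exact hz.1.1 q h
  · exact hs q h

theorem add_fix (p : St π H K) {z : ℕ → Z} (hz : z ∈ nb π p.1 ∩ K) (s : Finset (ℕ × Z))
    (hs : ∀ q ∈ s, z q.1 = q.2) (m : ℕ)
    (hm : ∀ m' ≥ m, ∀ w, (∀ q ∈ s, w q.1 = q.2) → (∀ q ∈ p.1.2, q.2 ∈ cl H (Jm π m' w)) →
      ∀ q ∈ s, q.2 ∈ cl H (Jm π m' w)) : ∃ p' : St π H K, p ≤ p' ∧ s ⊆ p'.1.2 := by
  classical
  have h1 : p.1 ≤ (p.1.1, p.1.2 ∪ s) := ⟨le_rfl, Finset.subset_union_left⟩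
  obtain ⟨m0, hm0⟩ := p.2.2
  refine ⟨⟨(p.1.1, p.1.2 ∪ s), ⟨z, ⟨hz.1.1, fun q hq => ?_⟩, hz.2⟩, max m m0,
    fun w hw q hq => ?_⟩, h1, Finset.subset_union_right⟩
  · rcases Finset.mem_union.1 hq with h | h
    · exact hz.1.2 q h
    · exact hs q h
  · have h2 : ∀ q ∈ p.1.2, q.2 ∈ cl H (Jm π (max m m0) w) := fun q hq =>
      cl_mono Subset.rfl (Jm_mono π (le_max_right _ _) w) (hm0 w (nb_anti h1 hw) q hq)
    rcases Finset.mem_union.1 hq with h | h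
    · exact h2 q h
    · exact hm _ (le_max_left _ _) w (fun q hq => hw.2 q (Finset.mem_union_right _ hq)) h2 q h

/-- The bit `(i, j)` is decided, and the coordinates `i`, `j` are fixed or not antipodal. -/
def R1 (r : ℕ × ℕ) (p : St π H K) : Prop :=
  (∃ e, (r.1, r.2, e) ∈ p.1.1) ∧
    ((∃ d, (r.1, d) ∈ p.1.2) ∨ ∃ k e, (r.1, k, e) ∈ p.1.1 ∧ (r.2, k, e) ∈ p.1.1)

/-- The coordinate `i` is fixed or separated. -/
def R2 (i : ℕ) (p : St π H K × St π H K) : Prop :=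
  (∃ d, (i, d) ∈ p.1.1.2) ∨ ∃ k e, (i, k, e) ∈ p.1.1.1 ∧ (i, k, !e) ∈ p.2.1.1

theorem R1.mono {r : ℕ × ℕ} {p q : St π H K} (h : p ≤ q) (h1 : R1 r p) : R1 r q := by
  have h2 : p.1 ≤ q.1 := h
  obtain ⟨⟨e, he⟩, ⟨d, hd⟩ | ⟨k, e', h3, h4⟩⟩ := h1
  · exact ⟨⟨e, h2.1 he⟩, .inl ⟨d, h2.2 hd⟩⟩
  · exact ⟨⟨e, h2.1 he⟩, .inr ⟨k, e', h2.1 h3, h2.1 h4⟩⟩

theorem R2.mono {i : ℕ} {p q : St π H K × St π H K} (h : p ≤ q) (h1 : R2 i p) : R2 i q := by
  have h2 : p.1.1 ≤ q.1.1 := h.1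
  have h2' : p.2.1 ≤ q.2.1 := h.2
  obtain ⟨d, hd⟩ | ⟨k, e', h3, h4⟩ := h1
  · exact .inl ⟨d, h2.2 hd⟩
  · exact .inr ⟨k, e', h2.1 h3, h2'.1 h4⟩

theorem R1.dense (r : ℕ × ℕ) (p : St π H K) : ∃ q, p ≤ q ∧ R1 r q := by
  classical
  obtain ⟨i, j⟩ := r
  obtain ⟨z, hz⟩ := p.2.1
  obtain ⟨p1, h1, h2⟩ := add_bit p hz {(i, j, π (z i) j)} (by simp)
  have h3 : (i, j, π (z i) j) ∈ p1.1.1 := h2 (Finset.mem_singleton_self _)
  obtain ⟨y, hy⟩ := p1.2.1
  by_cases hc : π (y i) = ng (π (y j))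
  · obtain ⟨p2, h4, h5⟩ := add_fix p1 hy {(i, y i), (j, y j)} (by simp) (max i j + 1) (by
      intro m hm w hw _ q hq
      have e1 : w i = y i := hw (i, y i) (by simp)
      have e2 : w j = y j := hw (j, y j) (by simp)
      have l1 : i < m := by omega
      have l2 : j < m := by omega
      refine subset_cl H _ ?_
      rcases Finset.mem_insert.1 hq with rfl | hq
      · exact ⟨i, l1, j, l2, e1.symm, by rw [e1, e2, hc]⟩
      · rw [Finset.mem_singleton.1 hq]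
        exact ⟨j, l2, i, l1, e2.symm, by rw [e1, e2, hc, ng_ng]⟩)
    have h6 : p1.1 ≤ p2.1 := h4
    exact ⟨p2, h1.trans h4, ⟨_, h6.1 h3⟩, .inl ⟨y i, h5 (by simp)⟩⟩
  · obtain ⟨k, hk⟩ := Function.ne_iff.1 hc
    have hk' : π (y j) k = π (y i) k := by
      revert hk
      simp only [ng]
      cases π (y j) k <;> cases π (y i) k <;> simp
    obtain ⟨p2, h4, h5⟩ := add_bit p1 hy {(i, k, π (y i) k), (j, k, π (y i) k)} (by simp [hk'])
    have h6 : p1.1 ≤ p2.1 := h4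
    exact ⟨p2, h1.trans h4, ⟨_, h6.1 h3⟩, .inr ⟨k, π (y i) k, h5 (by simp), h5 (by simp)⟩⟩

theorem R2.dense (hinj : Function.Injective π)
    (hH : ∀ p i d, (nb π p ∩ K).Nonempty → (∀ z ∈ nb π p ∩ K, z i = d) → (p, i, d) ∈ H)
    (i : ℕ) (p : St π H K × St π H K) : ∃ q, p ≤ q ∧ R2 i q := by
  obtain ⟨p0, p1⟩ := p
  obtain ⟨y, hy⟩ := p1.2.1
  by_cases hc : ∀ z ∈ nb π p0.1 ∩ K, z i = y i
  · obtain ⟨z, hz⟩ := p0.2.1
    obtain ⟨p2, h4, h5⟩ := add_fix p0 hz {(i, y i)} (by simpa using hc z hz) 0 (by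
      intro m _ w _ hw q hq
      rw [Finset.mem_singleton.1 hq]
      exact clo_cl H _ _ (hH p0.1 i (y i) p0.2.1 hc) hw)
    exact ⟨(p2, p1), ⟨h4, le_rfl⟩, .inl ⟨y i, h5 (by simp)⟩⟩
  · push Not at hc
    obtain ⟨z, hz, hne⟩ := hc
    obtain ⟨k, hk⟩ := Function.ne_iff.1 (hinj.ne hne)
    have hk' : π (y i) k = !π (z i) k := by
      revert hk
      cases π (y i) k <;> cases π (z i) k <;> simp
    obtain ⟨p2, h4, h5⟩ := add_bit p0 hz {(i, k, π (z i) k)} (by simp)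
    obtain ⟨p3, h6, h7⟩ := add_bit p1 hy {(i, k, !π (z i) k)} (by simp [hk'])
    exact ⟨(p2, p3), ⟨h4, h6⟩, .inr ⟨k, π (z i) k, h5 (by simp), h7 (by simp)⟩⟩

theorem split (hinj : Function.Injective π)
    (hH : ∀ p i d, (nb π p ∩ K).Nonempty → (∀ z ∈ nb π p ∩ K, z i = d) → (p, i, d) ∈ H)
    (p : St π H K) (n : ℕ) : ∃ c : Bool → St π H K,
      (∀ e, p ≤ c e ∧ ∀ i ≤ n, ∀ j ≤ n, R1 (i, j) (c e)) ∧ ∀ i ≤ n, R2 i (c false, c true) := by
  obtain ⟨p', h1, h2⟩ := meet_all R1 (fun _ _ _ => R1.mono) R1.dense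
    (Finset.range (n + 1) ×ˢ Finset.range (n + 1)) p
  obtain ⟨q, h3, h4⟩ := meet_all R2 (fun _ _ _ => R2.mono) (R2.dense hinj hH)
    (Finset.range (n + 1)) (p', p')
  have h5 : ∀ i ≤ n, ∀ j ≤ n, R1 (i, j) p' := fun i hi j hj =>
    h2 _ (by simp only [Finset.mem_product, Finset.mem_range]; omega)
  refine ⟨fun e => cond e q.2 q.1, fun e => ?_, fun i hi => h4 i (Finset.mem_range.2 (by omega))⟩
  cases e
  · exact ⟨h1.trans h3.1, fun i hi j hj => (h5 i hi j hj).mono h3.1⟩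
  · exact ⟨h1.trans h3.2, fun i hi j hj => (h5 i hi j hj).mono h3.2⟩

end Split

theorem covered {π : Z → Ca} (hinj : Function.Injective π) {A C : Set Ca} (hAC : ∀ a ∈ A, a ∉ C)
    (hs : ∀ t ∈ A, ∃ z, π z = t)
    (hB : ∀ u : Code, (∀ s, {b | s ∈ Fam u b}.Countable) → (∀ b, ∀ r ∈ Fam u b, ng r ∉ Fam u b) →
      ∃ b, Fam u b ⊆ A)
    (Good : Bas Z → Prop) (hG : ∀ p, Good p → ∀ q ∈ p.2, π q.2 ∈ C)
    (hcov : ∀ x, ∃ p, Good p ∧ x ∈ nb π p) :
    ∃ H : Set (Bas Z × ℕ × Z), Func H ∧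
      ∀ x, ∃ m p, Good p ∧ x ∈ nb π p ∧ ∀ q ∈ p.2, q.2 ∈ cl H (Jm π m x) := by
  classical
  obtain ⟨H, hF, hH⟩ := exists_rules π Good
  refine ⟨H, hF, fun x0 => ?_⟩
  by_contra hx0
  choose c hc1 hc2 using split hinj hH
  let p0 : St π H (KK π Good H) := ⟨(∅, ∅), ⟨x0, ⟨by simp, by simp⟩, hx0⟩, 0, by simp⟩
  let T : List Bool → St π H (KK π Good H) := fun σ =>
    List.rec p0 (fun e σ t => c t σ.length e) σ
  have hT : ∀ (b : Ca) n, T (PiNat.res b (n + 1)) = c (T (PiNat.res b n)) n (b n) := by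
    intro b n
    show c (T (PiNat.res b n)) (PiNat.res b n).length (b n) = _
    rw [PiNat.res_length]
  have hmono : ∀ b : Ca, Monotone fun n => T (PiNat.res b n) := fun b =>
    monotone_nat_of_le_succ fun n => by rw [hT]; exact (hc1 _ _ _).1
  have hm : ∀ (b : Ca) {n n'}, n ≤ n' → (T (PiNat.res b n)).1 ≤ (T (PiNat.res b n')).1 :=
    fun b _ _ h => hmono b h
  have hR : ∀ (b : Ca) i j n, i < n → j < n → R1 (i, j) (T (PiNat.res b n)) := by
    intro b i j n hi hj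
    obtain ⟨n, rfl⟩ : ∃ k, n = k + 1 := ⟨n - 1, by omega⟩
    rw [hT]
    exact (hc1 _ _ _).2 i (by omega) j (by omega)
  let u : Code := fun σ => ((T σ).1.1, (T σ).1.2.image Prod.fst)
  have hbit : ∀ (b : Ca) n i k e, (i, k, e) ∈ (T (PiNat.res b n)).1.1 → lim u b i k = e := by
    intro b n i k e h
    cases e
    · simp only [lim, decide_eq_false_iff_not]
      rintro ⟨n', h'⟩
      obtain ⟨z, hz, -⟩ := (T (PiNat.res b (max n n'))).2.1
      have e1 := hz.1 _ ((hm b (le_max_left n n')).1 h)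
      have e2 := hz.1 _ ((hm b (le_max_right n n')).1 h')
      simp only at e1 e2
      rw [e1] at e2
      exact Bool.false_ne_true e2
    · simp only [lim, decide_eq_true_eq]
      exact ⟨n, h⟩
  have hfix : ∀ (b : Ca) n i d, (i, d) ∈ (T (PiNat.res b n)).1.2 → π d = lim u b i := by
    intro b n i d h
    funext k
    obtain ⟨e, he⟩ := (hR b i k (max n (max i k + 1)) (by omega) (by omega)).1
    obtain ⟨z, hz, -⟩ := (T (PiNat.res b (max n (max i k + 1)))).2.1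
    have e1 := hz.1 _ he
    have e2 := hz.2 _ ((hm b (le_max_left _ _)).2 h)
    simp only at e1 e2
    rw [hbit b _ i k e he, ← e2, e1]
  have hfree : ∀ (b : Ca) i, Free u b i ↔ ∀ n d, (i, d) ∉ (T (PiNat.res b n)).1.2 := by
    intro b i
    refine ⟨fun h n d hd => h n (Finset.mem_image.2 ⟨_, hd, rfl⟩), fun h n hn => ?_⟩
    obtain ⟨⟨i', d⟩, hd, rfl⟩ := Finset.mem_image.1 hn
    exact h n d hd
  have hsep : ∀ (b b' : Ca) n i, i ≤ n → PiNat.res b n = PiNat.res b' n → b n = false →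
      b' n = true → Free u b i → lim u b i ≠ lim u b' i := by
    intro b b' n i hi h1 h2 h3 h4 h5
    have e1 := hT b n
    have e2 := hT b' n
    rw [h2] at e1
    rw [h3, ← h1] at e2
    obtain ⟨d, hd⟩ | ⟨k, e, h6, h7⟩ := hc2 (T (PiNat.res b n)) n i hi
    · exact (hfree b i).1 h4 (n + 1) d (by rw [e1]; exact hd)
    · have f1 := hbit b (n + 1) i k e (by rw [e1]; exact h6)
      have f2 := hbit b' (n + 1) i k (!e) (by rw [e2]; exact h7)
      rw [h5, f2] at f1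
      simp at f1
  obtain ⟨b, hb⟩ := hB u (fun s => by
      refine (countable_iUnion fun i : ℕ => countable_iUnion fun σ : List Bool =>
        (show {b : Ca | PiNat.res b i = σ ∧ Free u b i ∧ s = lim u b i}.Subsingleton from
          ?_).countable).mono ?_
      · rintro b ⟨h1, h2, h3⟩ b' ⟨h4, h5, h6⟩
        by_contra hne
        have hex : ∃ n, b n ≠ b' n := Function.ne_iff.1 hne
        have h7 : PiNat.res b (Nat.find hex) = PiNat.res b' (Nat.find hex) :=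
          PiNat.res_eq_res.2 fun m hm => not_not.1 (Nat.find_min hex hm)
        have h8 := Nat.find_spec hex
        have h9 : i ≤ Nat.find hex := not_lt.1 fun h =>
          h8 (PiNat.res_eq_res.1 (h1.trans h4.symm) h)
        cases hb : b (Nat.find hex)
        · exact hsep b b' _ i h9 h7 hb (by rw [hb] at h8; simpa using h8) h2 (h3.symm.trans h6)
        · exact hsep b' b _ i h9 h7.symm (by rw [hb] at h8; simpa using h8) hb h5
            (h6.symm.trans h3)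
      · rintro b ⟨i, h1, h2⟩
        exact mem_iUnion.2 ⟨i, mem_iUnion.2 ⟨_, rfl, h1, h2⟩⟩)
    (by
      rintro b r ⟨i, h1, rfl⟩ ⟨j, -, h2⟩
      obtain ⟨d, hd⟩ | ⟨k, e, h3, h4⟩ := (hR b i j (max i j + 1) (by omega) (by omega)).2
      · exact (hfree b i).1 h1 (max i j + 1) d hd
      · have f1 := hbit b (max i j + 1) i k e h3
        have f2 := hbit b (max i j + 1) j k e h4
        rw [← h2, ng, f1] at f2
        simp at f2)
  have hx : ∀ i, ∃ z, π z = lim u b i := by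
    intro i
    by_cases h : Free u b i
    · exact hs _ (hb ⟨i, h, rfl⟩)
    · rw [hfree] at h
      push Not at h
      obtain ⟨n, d, hd⟩ := h
      exact ⟨d, hfix b n i d hd⟩
  choose x hx using hx
  obtain ⟨p, hp, hxp⟩ := hcov x
  have ev1 : ∀ᶠ n in atTop, ∀ q ∈ p.1, q ∈ (T (PiNat.res b n)).1.1 := by
    rw [eventually_all_finset]
    rintro ⟨i, k, e⟩ hq
    filter_upwards [eventually_gt_atTop i, eventually_gt_atTop k] with n h1 h2
    obtain ⟨e', he⟩ := (hR b i k n h1 h2).1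
    have e1 := hxp.1 _ hq
    simp only at e1 he
    rw [hx, hbit b n i k e' he] at e1
    rwa [← e1]
  have ev2 : ∀ᶠ n in atTop, ∀ q ∈ p.2, q ∈ (T (PiNat.res b n)).1.2 := by
    rw [eventually_all_finset]
    rintro ⟨i, d⟩ hq
    have e1 : x i = d := hxp.2 _ hq
    have h : ¬ Free u b i := fun h => hAC _ (hb ⟨i, h, rfl⟩) (by
      rw [← hx, e1]; exact hG p hp _ hq)
    rw [hfree] at h
    push Not at h
    obtain ⟨n, d', hd⟩ := h
    have e2 : d' = d := hinj (by rw [hfix b n i d' hd, ← hx, e1])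
    rw [e2] at hd
    exact (eventually_ge_atTop n).mono fun m h => (hm b h).2 hd
  obtain ⟨n, h1, h2⟩ := (ev1.and ev2).exists
  obtain ⟨⟨z, hz, hzK⟩, m, hzm⟩ := (T (PiNat.res b n)).2
  exact hzK ⟨m, p, hp, nb_anti (show p ≤ _ from ⟨h1, h2⟩) hz, fun q hq => hzm z hz q (h2 q hq)⟩

end Pool.Agent.MP_e5a18e_gt.H56
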