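import Mathlib

/-!
Transfinite construction of the sets `A` and `C` in the Cantor set.
-/

set_option autoImplicit false

open Set Cardinal Topology Filter

namespace Pool.Agent.MP_e5a18e_gt.H56

/-- The Cantor set. -/
abbrev Ca : Type := ℕ → Bool

/-- Bitwise negation. -/
def ng (x : Ca) : Ca := fun k => !x k

theorem ng_ng (x : Ca) : ng (ng x) = x := by
  funext k; simp [ng]

theorem ng_ne (x : Ca) : x ≠ ng x := fun h => by
  have := congrFun h 0
  simp [ng] at this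

theorem ng_inj : Function.Injective ng := Function.LeftInverse.injective ng_ng

theorem mk_Ca : #Ca = 𝔠 := by simp

theorem greedy {ι γ : Type} (hι : #ι ≤ 𝔠) (supp : γ → Set Ca) (hs : ∀ x, (supp x).Countable)
    (P : ι → γ → Prop)
    (h : ∀ (i : ι) (S : Set Ca), #S < 𝔠 → ∃ x, P i x ∧ ∀ t ∈ supp x, t ∉ S) :
    ∃ f : ι → γ, (∀ i, P i (f i)) ∧ ∀ i j, i ≠ j → ∀ t ∈ supp (f i), t ∉ supp (f j) := by
  obtain ⟨lo, wf, hr⟩ := exists_ord_eq_type_lt ι
  choose g hg1 hg2 using h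
  have hcard : ∀ (i : ι) (s : Iio i → γ), #(⋃ j, supp (s j)) < 𝔠 := by
    intro i s
    have h1 : #(Iio i) < 𝔠 := (mk_Iio_lt i hr).trans_le hι
    have h2 : #(⋃ j, supp (s j)) ≤ #(Iio i) * ℵ₀ := by
      refine mk_iUnion_le_sum_mk.trans ?_
      refine (sum_le_sum _ (fun _ => ℵ₀) fun j => ?_).trans (by simp)
      exact le_aleph0_iff_set_countable.2 (hs _)
    exact h2.trans_lt (mul_lt_of_lt aleph0_le_continuum h1 aleph0_lt_continuum)
  let F : ∀ i : ι, (∀ j, j < i → γ) → γ := fun i prev =>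
    g i (⋃ j : Iio i, supp (prev j j.2)) (hcard i _)
  let f : ι → γ := (wellFounded_lt (α := ι)).fix F
  have hf : ∀ i, f i = g i (⋃ j : Iio i, supp (f j)) (hcard i _) := fun i =>
    (wellFounded_lt (α := ι)).fix_eq F i
  have hlt : ∀ i j, j < i → ∀ t ∈ supp (f i), t ∉ supp (f j) := by
    intro i j hji t ht htj
    rw [hf i] at ht
    exact hg2 _ _ _ t ht (mem_iUnion.2 ⟨⟨j, hji⟩, htj⟩)
  refine ⟨f, fun i => by rw [hf i]; exact hg1 _ _ _, fun i j hij t ht htj => ?_⟩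
  rcases lt_or_gt_of_ne hij with h | h
  · exact hlt j i h t htj ht
  · exact hlt i j h t ht htj

theorem exists_notMem (S : Set Ca) (hS : #S < 𝔠) : ∃ t, t ∉ S := by
  by_contra h
  push Not at h
  have : S = Set.univ := eq_univ_of_forall h
  rw [this, mk_univ, mk_Ca] at hS
  exact lt_irrefl _ hS

theorem union_lt {S T : Set Ca} (hS : #S < 𝔠) (hT : #T < 𝔠) : #(S ∪ T : Set Ca) < 𝔠 :=
  (mk_union_le _ _).trans_lt (add_lt_of_lt aleph0_le_continuum hS hT)

theorem sym_lt {S : Set Ca} (hS : #S < 𝔠) : #(S ∪ ng ⁻¹' S : Set Ca) < 𝔠 :=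
  union_lt hS ((mk_preimage_of_injective _ S ng_inj).trans_lt hS)

theorem exists_AC {ι : Type} (hι : #ι = 𝔠) (F : ι → Ca → Set Ca) (hF : ∀ u b, (F u b).Countable) :
    ∃ A C : Set Ca, (∀ a ∈ A, ng a ∉ A) ∧ (∀ a ∈ A, a ∉ C) ∧ (∀ c ∈ C, ng c ∈ C) ∧
      ¬ C.Countable ∧ ∀ u, (∀ s, {b | s ∈ F u b}.Countable) → (∀ b, ∀ r ∈ F u b, ng r ∉ F u b) →
        ∃ b, F u b ⊆ A := by
  let P : ι → {T : Set Ca // T.Countable} × Ca → Prop := fun u x =>
    (((∀ s, {b | s ∈ F u b}.Countable) ∧ ∀ b, ∀ r ∈ F u b, ng r ∉ F u b) → ∃ b, F u b = x.1.1) ∧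
      (∀ r ∈ x.1.1, ng r ∉ x.1.1) ∧ x.2 ∉ x.1.1 ∧ ng x.2 ∉ x.1.1
  obtain ⟨f, hP, hd⟩ := greedy hι.le
    (fun x : {T : Set Ca // T.Countable} × Ca => (x.1.1 ∪ ng ⁻¹' x.1.1) ∪ {x.2, ng x.2})
    (fun x => (x.1.2.union (x.1.2.preimage ng_inj)).union (toFinite _).countable) P (by
    intro u S hS
    have hS1 := sym_lt hS
    obtain ⟨T, hT, h1, h2, h3⟩ : ∃ T : Set Ca, T.Countable ∧
        (((∀ s, {b | s ∈ F u b}.Countable) ∧ ∀ b, ∀ r ∈ F u b, ng r ∉ F u b) →
          ∃ b, F u b = T) ∧ (∀ r ∈ T, ng r ∉ T) ∧ ∀ t ∈ T, t ∉ S ∪ ng ⁻¹' S := by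
      by_cases hb : (∀ s, {b | s ∈ F u b}.Countable) ∧ ∀ b, ∀ r ∈ F u b, ng r ∉ F u b
      · have h2 : #(⋃ s : (S ∪ ng ⁻¹' S : Set Ca), {b | s.1 ∈ F u b}) ≤
            #(S ∪ ng ⁻¹' S : Set Ca) * ℵ₀ := by
          refine mk_iUnion_le_sum_mk.trans ?_
          refine (sum_le_sum _ (fun _ => ℵ₀) fun j => ?_).trans (by simp)
          exact le_aleph0_iff_set_countable.2 (hb.1 _)
        obtain ⟨b, hb'⟩ := exists_notMem _
          (h2.trans_lt (mul_lt_of_lt aleph0_le_continuum hS1 aleph0_lt_continuum))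
        exact ⟨F u b, hF u b, fun _ => ⟨b, rfl⟩, hb.2 b,
          fun t ht hts => hb' (mem_iUnion.2 ⟨⟨t, hts⟩, ht⟩)⟩
      · exact ⟨∅, countable_empty, fun h => absurd h hb, by simp, by simp⟩
    obtain ⟨c, hc⟩ := exists_notMem _ (union_lt hS1
      (sym_lt ((le_aleph0_iff_set_countable.2 hT).trans_lt aleph0_lt_continuum)))
    simp only [mem_union, mem_preimage, not_or] at hc h3
    refine ⟨(⟨T, hT⟩, c), ⟨h1, h2, hc.2.1, hc.2.2⟩, ?_⟩
    rintro t ((ht | ht) | rfl | rfl)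
    · exact (h3 t ht).1
    · have := (h3 _ ht).2
      rwa [ng_ng] at this
    · exact hc.1.1
    · exact hc.1.2)
  simp only [mem_union, mem_preimage, mem_insert_iff, mem_singleton_iff, not_or] at hd
  refine ⟨{t | ∃ u, t ∈ (f u).1.1}, {t | ∃ u, t = (f u).2 ∨ t = ng (f u).2}, ?_, ?_, ?_, ?_, ?_⟩
  · rintro a ⟨u, hu⟩ ⟨v, hv⟩
    by_cases huv : u = v
    · subst huv
      exact (hP u).2.1 a hu hv
    · exact (hd u v huv a (.inl (.inl hu))).1.2 hv
  · rintro a ⟨u, hu⟩ ⟨v, hv⟩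
    by_cases huv : u = v
    · subst huv
      rcases hv with rfl | rfl
      · exact (hP u).2.2.1 hu
      · exact (hP u).2.2.2 hu
    · have := (hd u v huv a (.inl (.inl hu))).2
      exact hv.elim this.1 this.2
  · rintro c ⟨u, rfl | rfl⟩
    · exact ⟨u, .inr rfl⟩
    · exact ⟨u, .inl (ng_ng _)⟩
  · intro hC
    have hinj : Function.Injective fun u => (f u).2 := by
      intro u v huv
      by_contra hne
      exact (hd u v hne _ (.inr (.inl rfl))).2.1 huv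
    have h1 : (Set.univ : Set ι).Countable := by
      refine (hC.preimage_of_injOn (f := fun u => (f u).2) hinj.injOn).mono ?_
      intro u _
      exact ⟨u, .inl rfl⟩
    rw [← le_aleph0_iff_set_countable, mk_univ, hι] at h1
    exact absurd h1 (not_le.2 aleph0_lt_continuum)
  · intro u h1 h2
    obtain ⟨b, hb⟩ := (hP u).1 ⟨h1, h2⟩
    exact ⟨b, fun t ht => ⟨u, hb ▸ ht⟩⟩

/-- Codes of binary trees of finite conditions: decided bits and fixed coordinates. -/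
abbrev Code : Type := List Bool → Finset (ℕ × ℕ × Bool) × Finset ℕ

theorem mk_Code : #Code = 𝔠 := by simp

open Classical in
/-- The coordinate `i` of the limit point of the branch `b`. -/
noncomputable def lim (u : Code) (b : Ca) (i : ℕ) : Ca :=
  fun k => decide (∃ n, (i, k, true) ∈ (u (PiNat.res b n)).1)

/-- The coordinate `i` is never fixed along the branch `b`. -/
def Free (u : Code) (b : Ca) (i : ℕ) : Prop := ∀ n, i ∉ (u (PiNat.res b n)).2

/-- The free coordinates of the limit point. -/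
def Fam (u : Code) (b : Ca) : Set Ca := {r | ∃ i, Free u b i ∧ r = lim u b i}

theorem fam_countable (u : Code) (b : Ca) : (Fam u b).Countable :=
  (countable_range (lim u b)).mono (by rintro _ ⟨i, _, h⟩; exact ⟨i, h.symm⟩)

end Pool.Agent.MP_e5a18e_gt.H56
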