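import Pool.Agent.MP_e5a18e_gt.H56.Comb

/-!
The space: `A ∪ C` in the Cantor set, with the points of `C` made isolated.
-/

set_option autoImplicit false

open Set Topology Filter

namespace Pool.Agent.MP_e5a18e_gt.H56

section Abstract

variable {Z : Type} [TopologicalSpace Z] {π : Z → Ca} {A C : Set Ca}

theorem nb_clopen [T1Space Z] (hc : Continuous π) (hi : ∀ z, π z ∈ C → IsOpen ({z} : Set Z))
    {p : Bas Z} (hp : ∀ q ∈ p.2, π q.2 ∈ C) : IsClopen (nb π p) := by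
  have e : nb π p = (⋂ q ∈ p.1, (fun z : ℕ → Z => π (z q.1) q.2.1) ⁻¹' {q.2.2}) ∩
      ⋂ q ∈ p.2, (fun z : ℕ → Z => z q.1) ⁻¹' {q.2} := by
    ext z
    simp only [nb, mem_ofPred_eq, mem_inter_iff, mem_iInter, mem_preimage, mem_singleton_iff]
  rw [e]
  refine IsClopen.inter (isClopen_biInter_finset fun q _ => ?_)
    (isClopen_biInter_finset fun q hq => ?_)
  · exact (isClopen_discrete _).preimage (by fun_prop)
  · exact IsClopen.preimage ⟨isClosed_singleton, hi _ (hp q hq)⟩ (by fun_prop)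

theorem nb_basis (hr : ∀ z, π z ∈ A ∨ π z ∈ C)
    (hn : ∀ z, π z ∈ A → comap π (𝓝 (π z)) ≤ 𝓝 z) {x : ℕ → Z} {U : Set (ℕ → Z)}
    (hU : U ∈ 𝓝 x) : ∃ p : Bas Z, (∀ q ∈ p.2, π q.2 ∈ C) ∧ x ∈ nb π p ∧ nb π p ⊆ U := by
  classical
  rw [nhds_pi, Filter.mem_pi] at hU
  obtain ⟨I, hI, t, ht, hIU⟩ := hU
  have h1 : ∀ i, ∃ n, π (x i) ∉ C → ∀ z, (∀ k < n, π z k = π (x i) k) → z ∈ t i := by
    intro i
    by_cases hC : π (x i) ∈ C
    · exact ⟨0, fun h => absurd hC h⟩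
    obtain ⟨s, hs, hst⟩ := mem_comap.1 (hn _ ((hr _).resolve_right hC) (ht i))
    obtain ⟨_, ⟨y, n, rfl⟩, h2, h3⟩ :=
      (PiNat.isTopologicalBasis_cylinders fun _ => Bool).mem_nhds_iff.1 hs
    refine ⟨n, fun _ z hz => hst (h3 ?_)⟩
    rw [PiNat.mem_cylinder_iff] at h2 ⊢
    exact fun k hk => (hz k hk).trans (h2 k hk)
  choose n hn using h1
  refine ⟨(hI.toFinset.biUnion fun i => (Finset.range (n i)).image fun k => (i, k, π (x i) k),
    (hI.toFinset.filter fun i => π (x i) ∈ C).image fun i => (i, x i)), ?_, ⟨?_, ?_⟩, ?_⟩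
  · intro q hq
    obtain ⟨i, hi, rfl⟩ := Finset.mem_image.1 hq
    exact (Finset.mem_filter.1 hi).2
  · intro q hq
    obtain ⟨i, -, hq⟩ := Finset.mem_biUnion.1 hq
    obtain ⟨k, -, rfl⟩ := Finset.mem_image.1 hq
    rfl
  · intro q hq
    obtain ⟨i, -, rfl⟩ := Finset.mem_image.1 hq
    rfl
  · intro z hz
    refine hIU fun i hi => ?_
    have hi' := hI.mem_toFinset.2 hi
    by_cases hC : π (x i) ∈ C
    · have e : z i = x i :=
        hz.2 (i, x i) (Finset.mem_image.2 ⟨i, Finset.mem_filter.2 ⟨hi', hC⟩, rfl⟩)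
      rw [e]
      exact mem_of_mem_nhds (ht i)
    · exact hn i hC _ fun k hk => hz.1 (i, k, π (x i) k) (Finset.mem_biUnion.2
        ⟨i, hi', Finset.mem_image.2 ⟨k, Finset.mem_range.2 hk, rfl⟩⟩)

theorem continuous_ng : Continuous ng :=
  continuous_pi fun k => (continuous_of_discreteTopology (f := fun e : Bool => !e)).comp
    (continuous_apply k)

omit [TopologicalSpace Z] in
theorem anti_mem (hA : ∀ a ∈ A, ng a ∉ A) (hAC : ∀ a ∈ A, a ∉ C) (hC : ∀ c ∈ C, ng c ∈ C)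
    (hr : ∀ z, π z ∈ A ∨ π z ∈ C) {z w : Z} (h : π z = ng (π w)) : π z ∈ C ∧ π w ∈ C := by
  have h1 : π w ∈ C := by
    refine (hr w).resolve_left fun hw => ?_
    rcases hr z with hz | hz
    · exact hA _ hw (h ▸ hz)
    · have := hC _ hz
      rw [h, ng_ng] at this
      exact hAC _ hw this
  exact ⟨h ▸ hC _ h1, h1⟩

theorem Jm_eventually (hc : Continuous π) (hA : ∀ a ∈ A, ng a ∉ A) (hAC : ∀ a ∈ A, a ∉ C)
    (hC : ∀ c ∈ C, ng c ∈ C) (hr : ∀ z, π z ∈ A ∨ π z ∈ C)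
    (hi : ∀ z, π z ∈ C → IsOpen ({z} : Set Z)) (m : ℕ) (x : ℕ → Z) :
    ∀ᶠ y in 𝓝 x, Jm π m y = Jm π m x := by
  have h0 : ∀ i, π (x i) ∈ C → ∀ᶠ y in 𝓝 x, y i = x i := fun i h =>
    (continuous_apply i).continuousAt.eventually ((hi _ h).mem_nhds rfl)
  have h1 : ∀ i j, ∀ᶠ y in 𝓝 x, (π (x i) = ng (π (x j)) → y i = x i ∧ y j = x j) ∧
      (π (x i) ≠ ng (π (x j)) → π (y i) ≠ ng (π (y j))) := by
    intro i j
    by_cases h : π (x i) = ng (π (x j))
    · obtain ⟨h2, h3⟩ := anti_mem hA hAC hC hr h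
      filter_upwards [h0 i h2, h0 j h3] with y h4 h5
      exact ⟨fun _ => ⟨h4, h5⟩, fun h' => absurd h h'⟩
    · have ho : IsOpen {y : ℕ → Z | π (y i) ≠ ng (π (y j))} :=
        isOpen_ne_fun (by fun_prop) (continuous_ng.comp (by fun_prop))
      filter_upwards [ho.mem_nhds h] with y hy
      exact ⟨fun h' => absurd h' h, fun _ => hy⟩
  have h2 := (eventually_all_finite (finite_lt_nat m)).2 fun i _ =>
    (eventually_all_finite (finite_lt_nat m)).2 fun j _ => h1 i j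
  filter_upwards [h2] with y hy
  ext d
  constructor
  · rintro ⟨i, hi, j, hj, rfl, h3⟩
    have h4 : π (x i) = ng (π (x j)) := by
      by_contra h
      exact (hy i hi j hj).2 h h3
    exact ⟨i, hi, j, hj, ((hy i hi j hj).1 h4).1, h4⟩
  · rintro ⟨i, hi, j, hj, rfl, h3⟩
    obtain ⟨h4, h5⟩ := (hy i hi j hj).1 h3
    exact ⟨i, hi, j, hj, h4.symm, by rw [h4, h5, h3]⟩

theorem exists_sel [T1Space Z] (hc : Continuous π) (hinj : Function.Injective π)
    (hA : ∀ a ∈ A, ng a ∉ A) (hAC : ∀ a ∈ A, a ∉ C) (hC : ∀ c ∈ C, ng c ∈ C)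
    (hB : ∀ u : Code, (∀ s, {b | s ∈ Fam u b}.Countable) → (∀ b, ∀ r ∈ Fam u b, ng r ∉ Fam u b) →
      ∃ b, Fam u b ⊆ A)
    (hr : ∀ z, π z ∈ A ∨ π z ∈ C) (hs : ∀ t ∈ A, ∃ z, π z = t)
    (hn : ∀ z, π z ∈ A → comap π (𝓝 (π z)) ≤ 𝓝 z) (hi : ∀ z, π z ∈ C → IsOpen ({z} : Set Z))
    {α : Type} (s : α → Set (ℕ → Z)) (hs1 : ∀ a, IsOpen (s a)) (hs2 : ⋃ a, s a = univ) :
    ∃ sel : (ℕ → Z) → Bas Z, (∀ x, ∀ᶠ y in 𝓝 x, sel y = sel x) ∧
      (∀ x, x ∈ nb π (sel x) ∧ ∃ a, nb π (sel x) ⊆ s a) ∧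
      (range fun z : Z => sel fun _ => z).Countable := by
  classical
  let Good : Bas Z → Prop := fun p => (∀ q ∈ p.2, π q.2 ∈ C) ∧ ∃ a, nb π p ⊆ s a
  obtain ⟨H, hF, hH⟩ := covered hinj hAC hs hB Good (fun p hp => hp.1) (fun x => by
    obtain ⟨a, ha⟩ := mem_iUnion.1 (hs2.symm ▸ mem_univ x : x ∈ ⋃ a, s a)
    obtain ⟨p, h1, h2, h3⟩ := nb_basis hr hn ((hs1 a).mem_nhds ha)
    exact ⟨p, ⟨h1, a, h3⟩, h2⟩)
  have h1 : ∀ e : Set Z, ∃ g : ℕ → Bas Z, e.Countable →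
      {p : Bas Z | ∀ q ∈ p.2, q.2 ∈ cl H e} ⊆ range g := by
    intro e
    by_cases he : e.Countable
    · obtain ⟨g, hg⟩ := countable_iff_exists_subset_range.1 (bas_countable (cl_countable hF he))
      exact ⟨g, fun _ => hg⟩
    · exact ⟨fun _ => (∅, ∅), fun h => absurd h he⟩
  choose g hg using h1
  let G : ℕ → (ℕ → Z) → Bas Z := fun n x => g (Jm π n.unpair.1 x) n.unpair.2
  have hex : ∀ x, ∃ n, Good (G n x) ∧ x ∈ nb π (G n x) := by
    intro x
    obtain ⟨m, p, h1, h2, h3⟩ := hH x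
    obtain ⟨k, hk⟩ := hg _ (Jm_finite π m x).countable h3
    refine ⟨Nat.pair m k, ?_⟩
    simp only [G, Nat.unpair_pair, hk]
    exact ⟨h1, h2⟩
  have hG : ∀ n x, ∀ᶠ y in 𝓝 x, G n y = G n x ∧
      ((Good (G n y) ∧ y ∈ nb π (G n y)) ↔ (Good (G n x) ∧ x ∈ nb π (G n x))) := by
    intro n x
    have h2 : ∀ᶠ y in 𝓝 x, G n y = G n x :=
      (Jm_eventually hc hA hAC hC hr hi n.unpair.1 x).mono fun y hy => by simp only [G, hy]
    have h3 : ∀ᶠ y in 𝓝 x, Good (G n x) → (y ∈ nb π (G n x) ↔ x ∈ nb π (G n x)) := by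
      by_cases h : Good (G n x)
      · have h4 := nb_clopen hc hi h.1
        by_cases h5 : x ∈ nb π (G n x)
        · filter_upwards [h4.isOpen.mem_nhds h5] with y hy _
          exact iff_of_true hy h5
        · filter_upwards [h4.isClosed.isOpen_compl.mem_nhds h5] with y hy _
          exact iff_of_false hy h5
      · exact Eventually.of_forall fun _ h' => absurd h' h
    filter_upwards [h2, h3] with y h4 h5
    rw [h4]
    exact ⟨rfl, and_congr_right h5⟩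
  refine ⟨fun x => G (Nat.find (hex x)) x, fun x => ?_,
    fun x => ⟨(Nat.find_spec (hex x)).2, (Nat.find_spec (hex x)).1.2⟩, ?_⟩
  · have h2 := (eventually_all_finite (finite_le_nat (Nat.find (hex x)))).2 fun n _ => hG n x
    filter_upwards [h2] with y hy
    have h3 : Nat.find (hex y) = Nat.find (hex x) := by
      rw [Nat.find_eq_iff]
      exact ⟨(hy _ le_rfl).2.2 (Nat.find_spec (hex x)),
        fun n hn h => Nat.find_min (hex x) hn ((hy n hn.le).2.1 h)⟩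
    rw [h3]
    exact (hy _ le_rfl).1
  · refine (countable_range (g ∅)).mono ?_
    rintro _ ⟨z, rfl⟩
    have h2 : ∀ m, Jm π m (fun _ => z) = ∅ := fun m => by
      rw [eq_empty_iff_forall_notMem]
      rintro d ⟨i, -, j, -, -, h⟩
      exact ng_ne _ h
    simp only [G, h2]
    exact mem_range_self _

theorem main_abstract [T2Space Z] (hc : Continuous π) (hinj : Function.Injective π)
    (hA : ∀ a ∈ A, ng a ∉ A) (hAC : ∀ a ∈ A, a ∉ C) (hC : ∀ c ∈ C, ng c ∈ C) (hCu : ¬ C.Countable)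
    (hB : ∀ u : Code, (∀ s, {b | s ∈ Fam u b}.Countable) → (∀ b, ∀ r ∈ Fam u b, ng r ∉ Fam u b) →
      ∃ b, Fam u b ⊆ A)
    (hr : ∀ z, π z ∈ A ∨ π z ∈ C) (hs : ∀ t, t ∈ A ∨ t ∈ C → ∃ z, π z = t)
    (hn : ∀ z, π z ∈ A → comap π (𝓝 (π z)) ≤ 𝓝 z) (hi : ∀ z, π z ∈ C → IsOpen ({z} : Set Z)) :
    LindelofSpace Z ∧ ParacompactSpace (ℕ → Z) ∧ ParacompactSpace (Z × Z) ∧
      ¬ LindelofSpace (Z × Z) := by
  have hsel := fun {α : Type} => exists_sel (α := α) hc hinj hA hAC hC hB hr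
    (fun t ht => hs t (.inl ht)) hn hi
  have hP : ParacompactSpace (ℕ → Z) := by
    refine ⟨fun α s hs1 hs2 => ?_⟩
    obtain ⟨sel, h1, h2, -⟩ := hsel s hs1 hs2
    refine ⟨range sel, fun p => {x | sel x = p.1}, fun p => ?_, ?_, fun x => ?_, ?_⟩
    · rw [isOpen_iff_mem_nhds]
      intro x hx
      exact (h1 x).mono fun y hy => hy.trans hx
    · exact eq_univ_of_forall fun x => mem_iUnion.2 ⟨⟨sel x, x, rfl⟩, rfl⟩
    · refine ⟨_, h1 x, (finite_singleton (⟨sel x, x, rfl⟩ : range sel)).subset ?_⟩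
      rintro p ⟨y, hy, hy'⟩
      exact Subtype.ext (hy.symm.trans hy')
    · rintro ⟨_, x, rfl⟩
      obtain ⟨a, ha⟩ := (h2 x).2
      refine ⟨a, fun y hy => ha ?_⟩
      have hy' : sel y = sel x := hy
      rw [← hy']
      exact (h2 y).1
  refine ⟨?_, hP, ?_, fun hLL => hCu ?_⟩
  · rw [← isLindelof_univ_iff]
    refine isLindelof_of_countable_subcover fun {ι} U hU hcov => ?_
    obtain ⟨sel, -, h2, h3⟩ := hsel (fun i => (fun x : ℕ → Z => x 0) ⁻¹' U i)
      (fun i => (hU i).preimage (continuous_apply 0))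
      (eq_univ_of_forall fun x => by
        obtain ⟨i, hi⟩ := mem_iUnion.1 (hcov (mem_univ (x 0)))
        exact mem_iUnion.2 ⟨i, hi⟩)
    have h4 : ∀ p : range fun z : Z => sel fun _ => z,
        ∃ i, nb π p.1 ⊆ (fun x : ℕ → Z => x 0) ⁻¹' U i := by
      rintro ⟨_, z, rfl⟩
      exact (h2 _).2
    choose i hi using h4
    have := h3.to_subtype
    refine ⟨range i, countable_range i, fun z _ => ?_⟩
    exact mem_iUnion₂.2 ⟨i ⟨_, z, rfl⟩, mem_range_self _, hi ⟨_, z, rfl⟩ (h2 _).1⟩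
  · have h1 : Function.LeftInverse (fun x : ℕ → Z => (x 0, x 1))
        fun (p : Z × Z) (i : ℕ) => if i = 0 then p.1 else p.2 := fun p => by simp
    refine (h1.isClosedEmbedding (by fun_prop) (continuous_pi fun i => ?_)).paracompactSpace
    by_cases h : i = 0
    · simpa only [h, if_true] using continuous_fst
    · simpa only [h, if_false] using continuous_snd
  · have hcl : IsClosed {p : Z × Z | π p.1 = ng (π p.2)} :=
      isClosed_eq (by fun_prop) (continuous_ng.comp (by fun_prop))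
    obtain ⟨t, htc, -, ht⟩ := hcl.isLindelof.elim_nhds_subcover (fun p => {p}) (by
      rintro ⟨z, w⟩ hp
      obtain ⟨h1, h2⟩ := anti_mem hA hAC hC hr hp
      rw [← singleton_prod_singleton]
      exact ((hi z h1).prod (hi w h2)).mem_nhds ⟨rfl, rfl⟩)
    refine (htc.image fun p => π p.2).mono fun c hc => ?_
    obtain ⟨z, hz⟩ := hs c (Or.inr hc)
    obtain ⟨w, hw⟩ := hs (ng c) (Or.inr (hC c hc))
    have : (w, z) ∈ {p : Z × Z | π p.1 = ng (π p.2)} := by
      show π w = ng (π z)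
      rw [hz, hw]
    obtain ⟨p, hp, hp'⟩ := mem_iUnion₂.1 (ht this)
    rw [mem_singleton_iff] at hp'
    exact ⟨p, hp, by rw [← hp']; exact hz⟩

theorem first_countable (hc : Continuous π) (hr : ∀ z, π z ∈ A ∨ π z ∈ C)
    (hn : ∀ z, π z ∈ A → comap π (𝓝 (π z)) ≤ 𝓝 z) (hi : ∀ z, π z ∈ C → IsOpen ({z} : Set Z)) :
    FirstCountableTopology Z := by
  refine ⟨fun z => ?_⟩
  rcases hr z with h | h
  · rw [le_antisymm (tendsto_iff_comap.1 (hc.tendsto z)) (hn z h)]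
    infer_instance
  · rw [(isOpen_singleton_iff_nhds_eq_pure z).1 (hi z h)]
    infer_instance

end Abstract

theorem main : ∃ (X : Type) (_ : TopologicalSpace X), T35Space X ∧ FirstCountableTopology X ∧
    LindelofSpace X ∧ ParacompactSpace (ℕ → X) ∧ ParacompactSpace (X × X) ∧
      ¬ LindelofSpace (X × X) := by
  classical
  obtain ⟨A, C, hA, hAC, hC, hCu, hB⟩ := exists_AC mk_Code Fam fam_countable
  let e : Ca → Ca → Bool := fun t c => decide (c ∈ C ∧ t = c)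
  let Z : Type := {p : Ca × (Ca → Bool) // (p.1 ∈ A ∨ p.1 ∈ C) ∧ p.2 = e p.1}
  let π : Z → Ca := fun z => z.1.1
  have hinj : Function.Injective π := by
    rintro ⟨⟨a, f⟩, h1, h2⟩ ⟨⟨b, g⟩, h3, h4⟩ h
    simp only [π] at h h2 h4
    subst h h2 h4
    rfl
  suffices h : (∀ z, π z ∈ A → comap π (𝓝 (π z)) ≤ 𝓝 z) ∧
      ∀ z, π z ∈ C → IsOpen ({z} : Set Z) from
    ⟨Z, inferInstance, inferInstance,
      first_countable (π := π) (by fun_prop) (fun z => z.2.1) h.1 h.2,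
      main_abstract (π := π) (by fun_prop) hinj hA hAC hC hCu hB (fun z => z.2.1)
        (fun t ht => ⟨⟨(t, e t), ht, rfl⟩, rfl⟩) h.1 h.2⟩
  constructor
  · intro z hz
    rw [nhds_subtype_eq_comap, ← tendsto_iff_comap]
    refine Tendsto.prodMk_nhds (f := comap π (𝓝 (π z))) (mx := π) (my := fun w : Z => w.1.2)
      tendsto_comap ?_
    rw [tendsto_pi_nhds]
    intro c
    refine tendsto_const_nhds.congr' ?_
    by_cases hc : c ∈ C
    · have hne : π z ≠ c := fun h => hAC _ hz (h ▸ hc)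
      filter_upwards [preimage_mem_comap (isOpen_ne.mem_nhds hne)] with w hw
      have hw' : π w ≠ c := hw
      rw [z.2.2, w.2.2]
      simp only [e, π] at hne hw' ⊢
      simp [hne, hw']
    · refine Eventually.of_forall fun w => ?_
      simp only
      rw [z.2.2, w.2.2]
      simp [e, hc]
  · intro z hz
    have : ({z} : Set Z) = (fun w : Z => w.1.2 (π z)) ⁻¹' {true} := by
      ext w
      simp only [mem_singleton_iff, mem_preimage]
      rw [w.2.2]
      simp only [e, hz, true_and, decide_eq_true_eq]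
      exact ⟨fun h => by rw [h], fun h => hinj h⟩
    rw [this]
    exact (isOpen_discrete _).preimage (by fun_prop)

end Pool.Agent.MP_e5a18e_gt.H56
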